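import Mathlib

/-!
# The index of `ℤ[ζ - ζ⁻¹]` in `ℤ[ζ]`
-/

set_option autoImplicit false

namespace Pool.Agent.KS6_36.LUC

variable {R : Type} [CommRing R] {z w : R}

theorem span_all (h : z * w = 1) {x : R} (hx : x ∈ Algebra.adjoin ℤ ({z} : Set R)) :
    ∃ a ∈ Algebra.adjoin ℤ ({z + w} : Set R), ∃ b ∈ Algebra.adjoin ℤ ({z + w} : Set R),
      x = a + b * z := by
  have hc : z + w ∈ Algebra.adjoin ℤ ({z + w} : Set R) := Algebra.subset_adjoin rfl
  induction hx using Algebra.adjoin_induction with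
  | mem x hx =>
    rw [Set.mem_singleton_iff] at hx
    exact ⟨0, zero_mem _, 1, one_mem _, by rw [hx]; ring⟩
  | algebraMap r => exact ⟨algebraMap ℤ R r, Subalgebra.algebraMap_mem _ _, 0, zero_mem _, by ring⟩
  | add x y _ _ hx hy =>
    obtain ⟨a, ha, b, hb, rfl⟩ := hx
    obtain ⟨a', ha', b', hb', rfl⟩ := hy
    exact ⟨a + a', add_mem ha ha', b + b', add_mem hb hb', by ring⟩
  | mul x y _ _ hx hy =>
    obtain ⟨a, ha, b, hb, rfl⟩ := hx
    obtain ⟨a', ha', b', hb', rfl⟩ := hy
    refine ⟨a * a' - b * b', sub_mem (mul_mem ha ha') (mul_mem hb hb'),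
      a * b' + a' * b + b * b' * (z + w),
      add_mem (add_mem (mul_mem ha hb') (mul_mem ha' hb)) (mul_mem (mul_mem hb hb') hc), ?_⟩
    linear_combination (-b * b') * h

theorem mem_iff (h : z * w = 1) (hc : z + w ∈ Algebra.adjoin ℤ ({z - w} : Set R)) (x : R) :
    x ∈ Algebra.adjoin ℤ ({z - w} : Set R) ↔
    ∃ a ∈ Algebra.adjoin ℤ ({z + w} : Set R), ∃ b ∈ Algebra.adjoin ℤ ({z + w} : Set R),
      x = a + 2 * b * z := by
  have hc' : z + w ∈ Algebra.adjoin ℤ ({z + w} : Set R) := Algebra.subset_adjoin rfl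
  constructor
  · intro hx
    induction hx using Algebra.adjoin_induction with
    | mem x hx =>
      rw [Set.mem_singleton_iff] at hx
      exact ⟨-(z + w), neg_mem hc', 1, one_mem _, by rw [hx]; ring⟩
    | algebraMap r =>
      exact ⟨algebraMap ℤ R r, Subalgebra.algebraMap_mem _ _, 0, zero_mem _, by ring⟩
    | add x y _ _ hx hy =>
      obtain ⟨a, ha, b, hb, rfl⟩ := hx
      obtain ⟨a', ha', b', hb', rfl⟩ := hy
      exact ⟨a + a', add_mem ha ha', b + b', add_mem hb hb', by ring⟩
    | mul x y _ _ hx hy =>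
      obtain ⟨a, ha, b, hb, rfl⟩ := hx
      obtain ⟨a', ha', b', hb', rfl⟩ := hy
      refine ⟨a * a' - (b * b' + b * b' + b * b' + b * b'),
        sub_mem (mul_mem ha ha') (add_mem (add_mem (add_mem (mul_mem hb hb') (mul_mem hb hb'))
          (mul_mem hb hb')) (mul_mem hb hb')),
        a * b' + a' * b + (b * b' * (z + w) + b * b' * (z + w)),
        add_mem (add_mem (mul_mem ha hb') (mul_mem ha' hb)) (add_mem
          (mul_mem (mul_mem hb hb') hc') (mul_mem (mul_mem hb hb') hc')), ?_⟩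
      linear_combination (-4 * b * b') * h
  · rintro ⟨a, ha, b, hb, rfl⟩
    have hle : Algebra.adjoin ℤ ({z + w} : Set R) ≤ Algebra.adjoin ℤ ({z - w} : Set R) := by
      rw [Algebra.adjoin_le_iff]
      rintro _ rfl
      exact hc
    have e : a + 2 * b * z = a + b * ((z - w) + (z + w)) := by ring
    rw [e]
    exact add_mem (hle ha) (mul_mem (hle hb) (add_mem (Algebra.subset_adjoin rfl) hc))

theorem index_eq [Module.Finite ℤ R] [IsDomain R] [CharZero R] (h : z * w = 1)
    (hc : z + w ∈ Algebra.adjoin ℤ ({z - w} : Set R))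
    (htop : Algebra.adjoin ℤ ({z} : Set R) = ⊤)
    (hinj : ∀ a ∈ Algebra.adjoin ℤ ({z + w} : Set R), ∀ b ∈ Algebra.adjoin ℤ ({z + w} : Set R),
      a + b * z = 0 → b = 0) :
    (Algebra.adjoin ℤ ({z - w} : Set R)).toSubring.toAddSubgroup.index =
      2 ^ (Module.finrank ℤ R / 2) := by
  classical
  let M : Submodule ℤ R := Subalgebra.toSubmodule (Algebra.adjoin ℤ ({z + w} : Set R))
  haveI : Module.Free ℤ R := inferInstance
  haveI : IsNoetherian ℤ R := inferInstance
  haveI : Module.Finite ℤ M := inferInstance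
  haveI : Module.Free ℤ M := inferInstance
  let Φ : (M × M) →ₗ[ℤ] R := M.subtype.coprod ((LinearMap.mulRight ℤ z).comp M.subtype)
  have hΦ : ∀ p : M × M, Φ p = p.1 + p.2 * z := fun p => rfl
  have hbij : Function.Bijective Φ := by
    constructor
    · rw [← LinearMap.ker_eq_bot, LinearMap.ker_eq_bot']
      intro p hp
      rw [hΦ] at hp
      have h2 := hinj _ p.1.2 _ p.2.2 hp
      rw [h2, zero_mul, add_zero] at hp
      exact Prod.ext (Subtype.ext hp) (Subtype.ext h2)
    · intro x
      obtain ⟨a, ha, b, hb, hx⟩ := span_all h (x := x) (htop ▸ Algebra.mem_top)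
      exact ⟨(⟨a, ha⟩, ⟨b, hb⟩), hx.symm⟩
  let e : (M × M) ≃ₗ[ℤ] R := LinearEquiv.ofBijective Φ hbij
  have hrank : Module.finrank ℤ R = 2 * Module.finrank ℤ M := by
    rw [← e.finrank_eq, Module.finrank_prod]
    ring
  let bas := Module.finBasis ℤ M
  set r := Module.finrank ℤ M with hr
  let p1 : R →+ (Fin r → ℤ) :=
    (bas.equivFun.toLinearMap.comp ((LinearMap.snd ℤ M M).comp e.symm.toLinearMap)).toAddMonoidHom
  let g : R →+ (Fin r → ZMod 2) := ((Int.castAddHom (ZMod 2)).compLeft (Fin r)).comp p1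
  have hg : ∀ (a b : M) (i : Fin r), g (a + b * z) i = ((bas.repr b i : ℤ) : ZMod 2) := by
    intro a b i
    have h3 : e.symm (a + b * z) = (a, b) := by
      rw [LinearEquiv.symm_apply_eq]
      rfl
    change ((bas.equivFun (e.symm (a + b * z)).2 i : ℤ) : ZMod 2) = _
    rw [h3]
    rfl
  have hsurj : Function.Surjective g := by
    intro v
    refine ⟨(0 : M) + (bas.equivFun.symm (fun i => ((v i).val : ℤ)) : M) * z, ?_⟩
    funext i
    rw [hg]
    have h4 : bas.repr (bas.equivFun.symm fun i => ((v i).val : ℤ)) i = ((v i).val : ℤ) := by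
      have := congrFun (LinearEquiv.apply_symm_apply bas.equivFun
        (fun i => ((v i).val : ℤ))) i
      exact this
    rw [h4]
    simp
  have hker : (Algebra.adjoin ℤ ({z - w} : Set R)).toSubring.toAddSubgroup = g.ker := by
    ext x
    rw [AddMonoidHom.mem_ker]
    change x ∈ Algebra.adjoin ℤ ({z - w} : Set R) ↔ _
    constructor
    · intro hx
      obtain ⟨a, ha, b, hb, rfl⟩ := (mem_iff h hc x).1 hx
      have e1 : a + 2 * b * z = ((⟨a, ha⟩ : M) : R) + (((2 : ℤ) • (⟨b, hb⟩ : M) : M) : R) * z := by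
        simp
      rw [e1]
      funext i
      rw [hg, map_smul]
      simp only [Finsupp.smul_apply, smul_eq_mul, Pi.zero_apply]
      push_cast
      have : (2 : ZMod 2) = 0 := rfl
      rw [this, zero_mul]
    · intro hx
      obtain ⟨a, ha, b, hb, rfl⟩ := span_all h (x := x) (htop ▸ Algebra.mem_top)
      have h5 : ∀ i, (2 : ℤ) ∣ bas.repr (⟨b, hb⟩ : M) i := by
        intro i
        have h6 := congrFun hx i
        have h7 := hg ⟨a, ha⟩ ⟨b, hb⟩ i
        change g (a + b * z) i = _ at h7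
        rw [h6] at h7
        exact (ZMod.intCast_zmod_eq_zero_iff_dvd _ 2).1 h7.symm
      choose c hcc using h5
      have h8 : (⟨b, hb⟩ : M) = (2 : ℤ) • bas.equivFun.symm c := by
        apply bas.equivFun.injective
        rw [map_smul, LinearEquiv.apply_symm_apply]
        funext i
        change bas.repr (⟨b, hb⟩ : M) i = _
        rw [hcc i]
        simp
      have h9 : b = 2 * ((bas.equivFun.symm c : M) : R) := by
        have := congrArg Subtype.val h8
        simpa using this
      rw [mem_iff h hc]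
      exact ⟨a, ha, _, (bas.equivFun.symm c).2, by rw [h9]⟩
  rw [hker, AddSubgroup.index_ker, AddMonoidHom.range_eq_top.2 hsurj,
    Nat.card_congr AddSubgroup.topEquiv.toEquiv, Nat.card_fun, Nat.card_zmod, hrank]
  congr 1
  rw [Nat.card_eq_fintype_card, Fintype.card_fin]
  omega

end Pool.Agent.KS6_36.LUC
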