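import Pool.Agent.KS6_36.LUC.Alg
import Pool.Graph.R_seed8.R325.LucasFib

/-!
# The index of `ℤ[θ]` in the ring of integers, `θ` a root of a Lucas polynomial of odd index
-/

set_option autoImplicit false

namespace Pool.Agent.KS6_36.LUC

open Polynomial NumberField
open Pool.Agent.R325.LucasFib (lucas lucas_eval exists_z lucas_aeval)

theorem root_form (n : ℕ) (hn : Odd n) (θ : ℂ) (h : aeval θ (lucas n) = 0) :
    ∃ ζ : ℂ, ζ ^ n = 1 ∧ ζ - ζ⁻¹ = θ := by
  obtain ⟨z, hz, rfl⟩ := exists_z θ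
  rw [lucas_eval z hz, hn.neg_pow, inv_pow] at h
  have hzn : z ^ n ≠ 0 := pow_ne_zero _ hz
  have h1 : (z ^ n - 1) * (z ^ n + 1) = 0 := by
    have : z ^ n * (z ^ n + -(z ^ n)⁻¹) = 0 := by rw [h, mul_zero]
    rw [mul_add, mul_neg, mul_inv_cancel₀ hzn] at this
    linear_combination this
  rcases mul_eq_zero.mp h1 with h2 | h2
  · exact ⟨z, by linear_combination h2, rfl⟩
  · refine ⟨-z⁻¹, ?_, ?_⟩
    · rw [hn.neg_pow, inv_pow]
      have : z ^ n = -1 := by linear_combination h2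
      rw [this]; norm_num
    · rw [inv_neg, inv_inv]; ring

section

variable {K : Type} [Field K] [NumberField K]

theorem cadd (x y : 𝓞 K) : ((x + y : 𝓞 K) : K) = x + y := rfl
theorem csub (x y : 𝓞 K) : ((x - y : 𝓞 K) : K) = x - y := rfl
theorem cmul (x y : 𝓞 K) : ((x * y : 𝓞 K) : K) = x * y := rfl
theorem cone : ((1 : 𝓞 K) : K) = 1 := rfl
theorem czero : ((0 : 𝓞 K) : K) = 0 := rfl
theorem cpow (x : 𝓞 K) (n : ℕ) : ((x ^ n : 𝓞 K) : K) = (x : K) ^ n :=
  map_pow (algebraMap (𝓞 K) K) x n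

theorem hom_aeval (φ : K →+* ℂ) (p : ℤ[X]) (x : K) : φ (aeval x p) = aeval (φ x) p := by
  have := Polynomial.hom_eval₂ p (algebraMap ℤ K) φ x
  rw [aeval_def, aeval_def, this]
  congr 1
  exact RingHom.ext_int _ _

/-- the root of unity in `K` -/
theorem exists_zeta (n : ℕ) (hn : Odd n) (θ : K) (hL : aeval θ (lucas n) = 0) :
    ∃ ζ : K, ζ ^ n = 1 ∧ ζ - ζ⁻¹ = θ ∧ ζ + ζ⁻¹ = aeval θ (lucas (n + 1)) := by
  obtain ⟨φ⟩ : Nonempty (K →+* ℂ) := inferInstance
  have hφ := φ.injective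
  have h1 : aeval (φ θ) (lucas n) = 0 := by rw [← hom_aeval, hL, map_zero]
  obtain ⟨z, hz, hzθ⟩ := root_form n hn _ h1
  have hn0 : n ≠ 0 := by rintro rfl; simp at hn
  have hz0 : z ≠ 0 := by rintro rfl; rw [zero_pow hn0] at hz; exact zero_ne_one hz
  have hsum : z + z⁻¹ = φ (aeval θ (lucas (n + 1))) := by
    rw [hom_aeval, ← hzθ, lucas_eval z hz0, Even.neg_pow hn.add_one, pow_succ, hz, inv_pow,
      pow_succ, hz]
    simp
  have h2 : φ ((θ + aeval θ (lucas (n + 1))) / 2) = z := by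
    rw [map_div₀, map_add, ← hsum, ← hzθ, map_ofNat]
    ring
  refine ⟨(θ + aeval θ (lucas (n + 1))) / 2, ?_, ?_, ?_⟩
  · apply hφ
    rw [map_pow, h2, hz, map_one]
  · apply hφ
    rw [map_sub, map_inv₀, h2, hzθ]
  · apply hφ
    rw [map_add, map_inv₀, h2, hsum]

theorem cyc (n : ℕ) (hn : Odd n) (ζ : K) (hζ : ζ ^ n = 1)
    (hK : Algebra.adjoin ℚ ({ζ - ζ⁻¹} : Set K) = ⊤) :
    ∃ d : ℕ, Odd d ∧ IsPrimitiveRoot ζ d ∧ IsCyclotomicExtension {d} ℚ K := by
  have hn0 : 0 < n := hn.pos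
  refine ⟨orderOf ζ, ?_, IsPrimitiveRoot.orderOf ζ, ?_⟩
  · exact hn.of_dvd_nat (orderOf_dvd_of_pow_eq_one hζ)
  · have hd0 : orderOf ζ ≠ 0 := by
      intro h
      have := orderOf_dvd_of_pow_eq_one hζ
      rw [h, zero_dvd_iff] at this
      omega
    haveI : NeZero (orderOf ζ) := ⟨hd0⟩
    rw [IsCyclotomicExtension.iff_singleton]
    refine ⟨⟨ζ, IsPrimitiveRoot.orderOf ζ⟩, fun x => ?_⟩
    have hζmem : ζ ∈ Algebra.adjoin ℚ {b : K | b ^ orderOf ζ = 1} :=
      Algebra.subset_adjoin (pow_orderOf_eq_one ζ)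
    have hζi : ζ⁻¹ ∈ Algebra.adjoin ℚ {b : K | b ^ orderOf ζ = 1} :=
      Algebra.subset_adjoin (by
        rw [Set.mem_ofPred_eq, inv_pow, pow_orderOf_eq_one, inv_one])
    have hle : Algebra.adjoin ℚ ({ζ - ζ⁻¹} : Set K) ≤
        Algebra.adjoin ℚ {b : K | b ^ orderOf ζ = 1} := by
      rw [Algebra.adjoin_le_iff]
      rintro _ rfl
      exact sub_mem hζmem hζi
    rw [hK] at hle
    exact hle Algebra.mem_top

theorem index_field (n : ℕ) (hn : Odd n) (θ : 𝓞 K) (hL : aeval (θ : K) (lucas n) = 0)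
    (hK : Algebra.adjoin ℚ ({(θ : K)} : Set K) = ⊤) :
    (Algebra.adjoin ℤ ({θ} : Set (𝓞 K))).toSubring.toAddSubgroup.index =
      2 ^ (Module.finrank ℚ K / 2) ∧
    ∀ x : 𝓞 K, 2 * x ∈ Algebra.adjoin ℤ ({θ} : Set (𝓞 K)) := by
  obtain ⟨ζ, hζn, hθ, hsum⟩ := exists_zeta n hn (θ : K) hL
  obtain ⟨d, hd, hprim, hcyc⟩ := cyc n hn ζ hζn (by rw [hθ]; exact hK)
  haveI : NeZero d := ⟨hd.pos.ne'⟩
  have htop := IsCyclotomicExtension.Rat.adjoin_singleton_eq_top hprim
  set z : 𝓞 K := hprim.toInteger with hz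
  have hzv : (z : K) = ζ := rfl
  have hn0 : n ≠ 0 := hn.pos.ne'
  have hζ0 : ζ ≠ 0 := by rintro rfl; rw [zero_pow hn0] at hζn; exact zero_ne_one hζn
  have hzn : z ^ n = 1 := by
    apply RingOfIntegers.ext
    rw [cpow, cone]
    exact hζn
  set w : 𝓞 K := z ^ (n - 1) with hw
  have hzw : z * w = 1 := by
    rw [hw, ← pow_succ', Nat.sub_add_cancel hn.pos, hzn]
  have hwv : (w : K) = ζ⁻¹ := by
    apply eq_inv_of_mul_eq_one_right
    have := congrArg (algebraMap (𝓞 K) K) hzw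
    rw [map_mul, map_one] at this
    exact this
  have hθ' : z - w = θ := by
    apply RingOfIntegers.ext
    rw [csub, hzv, hwv, hθ]
  have hc : z + w ∈ Algebra.adjoin ℤ ({z - w} : Set (𝓞 K)) := by
    have h1 : z + w = aeval θ (lucas (n + 1)) := by
      apply RingOfIntegers.ext
      rw [cadd, hzv, hwv, hsum]
      exact (Polynomial.aeval_algebraMap_apply K θ (lucas (n + 1)))
    rw [h1, hθ']
    exact Polynomial.aeval_mem_adjoin_singleton ℤ θ
  have h2z : ∀ x : 𝓞 K, 2 * x ∈ Algebra.adjoin ℤ ({z - w} : Set (𝓞 K)) := by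
    intro x
    obtain ⟨a, ha, b, hb, rfl⟩ := span_all hzw (x := x) (htop ▸ Algebra.mem_top)
    rw [mem_iff hzw hc]
    exact ⟨a + a, add_mem ha ha, b, hb, by ring⟩
  rcases eq_or_ne ζ 1 with h1 | h1
  · -- `θ = 0` and `K = ℚ`
    have hz1 : z = 1 := by
      apply RingOfIntegers.ext
      rw [cone]
      exact h1
    have hθ0 : θ = 0 := by
      have : w = 1 := by rw [hw, hz1, one_pow]
      rw [← hθ', hz1, this, sub_self]
    have hT : Algebra.adjoin ℤ ({θ} : Set (𝓞 K)) = ⊤ := by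
      rw [eq_top_iff, ← htop, Algebra.adjoin_le_iff]
      rintro _ rfl
      change z ∈ _
      rw [hz1]
      exact one_mem _
    have hf : Module.finrank ℚ K = 1 := by
      rw [hθ0] at hK
      have h3 : (⊥ : Subalgebra ℚ K) = ⊤ := by
        rw [← hK]
        symm
        rw [Algebra.adjoin_singleton_eq_range_aeval]
        rw [eq_bot_iff]
        rintro _ ⟨p, rfl⟩
        change aeval ((0 : 𝓞 K) : K) p ∈ _
        rw [czero, ← Polynomial.coeff_zero_eq_aeval_zero']
        exact Subalgebra.algebraMap_mem _ _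
      rw [← Subalgebra.finrank_bot (F := ℚ) (E := K), h3]
      exact (Subalgebra.topEquiv.toLinearEquiv.finrank_eq).symm
    refine ⟨?_, by rw [← hθ']; exact h2z⟩
    rw [hT, hf]
    change (⊤ : AddSubgroup (𝓞 K)).index = _
    rw [AddSubgroup.index_top]
    norm_num
  · refine ⟨?_, by rw [← hθ']; exact h2z⟩
    rw [← hθ', index_eq hzw hc htop, RingOfIntegers.rank]
    -- injectivity
    obtain ⟨φ⟩ : Nonempty (K →+* ℂ) := inferInstance
    have hφz : (φ ζ) ^ n = 1 := by rw [← map_pow, hζn, map_one]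
    have hnorm : ‖φ ζ‖ = 1 := by
      have := congrArg norm hφz
      rw [norm_pow, norm_one] at this
      exact (pow_eq_one_iff_of_nonneg (norm_nonneg _) hn0).1 this
    have hinv : (φ ζ)⁻¹ = (starRingEnd ℂ) (φ ζ) := by
      rw [Complex.inv_def, Complex.normSq_eq_norm_sq, hnorm]
      simp
    have hreal : ∀ a ∈ Algebra.adjoin ℤ ({z + w} : Set (𝓞 K)), (φ (a : K)).im = 0 := by
      intro a ha
      induction ha using Algebra.adjoin_induction with
      | mem x hx =>
        rw [Set.mem_singleton_iff] at hx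
        rw [hx, cadd, hzv, hwv, map_add, map_inv₀, hinv]
        simp
      | algebraMap r =>
        have : φ ((algebraMap ℤ (𝓞 K) r : 𝓞 K) : K) = (r : ℂ) := by simp
        rw [this]
        exact Complex.intCast_im r
      | add x y _ _ hx hy => rw [cadd, map_add, Complex.add_im, hx, hy, add_zero]
      | mul x y _ _ hx hy =>
        rw [cmul, map_mul, Complex.mul_im, hx, hy, mul_zero, zero_mul, add_zero]
    have him : (φ ζ).im ≠ 0 := by
      intro h
      have hr : φ ζ = ((φ ζ).re : ℂ) := by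
        apply Complex.ext <;> simp [h]
      rw [hr] at hφz
      have h5 : ((φ ζ).re) ^ n = 1 := by exact_mod_cast hφz
      have h6 : (φ ζ).re = 1 := by
        have h7 : ((φ ζ).re) ^ n = 1 ^ n := by rw [h5, one_pow]
        exact hn.strictMono_pow.injective h7
      rw [h6] at hr
      apply h1
      apply φ.injective
      rw [hr]
      simp
    intro a ha b hb hab
    have h8 : φ (a : K) + φ (b : K) * φ ζ = 0 := by
      have := congrArg (fun x : 𝓞 K => φ (x : K)) hab
      simp only [cadd, cmul, czero, map_add, map_mul, map_zero] at this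
      exact this
    have h9 := congrArg Complex.im h8
    rw [Complex.add_im, hreal a ha, Complex.mul_im, hreal b hb, zero_mul, add_zero, zero_add,
      Complex.zero_im] at h9
    have h10 : (φ (b : K)).re = 0 := by
      rcases mul_eq_zero.1 h9 with h | h
      · exact h
      · exact absurd h him
    have h11 : φ (b : K) = 0 := Complex.ext h10 (hreal b hb)
    have h12 : (b : K) = 0 := by
      apply φ.injective
      rw [h11, map_zero]
    apply RingOfIntegers.ext
    rw [h12, czero]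

end

end Pool.Agent.KS6_36.LUC
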